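import Pool.Agent.GBL.MG

/-!
# Finiteness of rational points on explicit diagonal varieties over function fields

`K / k` is a finitely generated extension of fields of characteristic `0` with `k` algebraically closed
in `K`.  For an `s × n` matrix `A` over `K`, `s ≤ n`, consider in projective space `P^(s+n-1)` the system
`y_j^d = ∑_i A_ij x_i^d` (`j = 1, ..., n`).
-/

open Function
open scoped LinearAlgebra.Projectivization

namespace Pool.Agent.Results.MP_46885d_ag.ExplicitFiniteness

open Pool.Agent.GBL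

/-- The exponents `∑_m 2^(n i_m + j_σ(m))` of the different permutations are different. -/
theorem exponent_injective {s n r : ℕ} (I : Fin r ↪ Fin s) (J : Fin r ↪ Fin n) :
    Injective fun σ : Equiv.Perm (Fin r) =>
      ∑ m, 2 ^ (n * (I m : ℕ) + (J (σ m) : ℕ)) := by
  classical
  intro σ τ h
  simp only at h
  have hinj : ∀ ρ : Equiv.Perm (Fin r), Injective fun m => n * (I m : ℕ) + (J (ρ m) : ℕ) := by
    intro ρ a b hab
    simp only at hab
    have h1 : (I a : ℕ) = (I b : ℕ) := by
      have ha := (J (ρ a)).2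
      have hb := (J (ρ b)).2
      rcases Nat.lt_trichotomy (I a : ℕ) (I b : ℕ) with hlt | heq | hlt
      · exfalso
        have : n * ((I a : ℕ) + 1) ≤ n * (I b : ℕ) := Nat.mul_le_mul_left n hlt
        rw [mul_add, mul_one] at this
        omega
      · exact heq
      · exfalso
        have : n * ((I b : ℕ) + 1) ≤ n * (I a : ℕ) := Nat.mul_le_mul_left n hlt
        rw [mul_add, mul_one] at this
        omega
    exact I.injective (Fin.ext h1)
  have hsum : ∀ ρ : Equiv.Perm (Fin r), ∑ m, 2 ^ (n * (I m : ℕ) + (J (ρ m) : ℕ)) =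
      ∑ e ∈ Finset.univ.image (fun m => n * (I m : ℕ) + (J (ρ m) : ℕ)), 2 ^ e := by
    intro ρ
    rw [Finset.sum_image (fun x _ y _ hxy => hinj ρ hxy)]
  rw [hsum, hsum] at h
  have h2 := Finset.geomSum_injective (n := 2) le_rfl h
  apply Equiv.ext
  intro m
  have h3 : n * (I m : ℕ) + (J (σ m) : ℕ) ∈
      Finset.univ.image (fun m => n * (I m : ℕ) + (J (τ m) : ℕ)) := by
    rw [← h2]
    exact Finset.mem_image_of_mem _ (Finset.mem_univ m)
  rw [Finset.mem_image] at h3
  obtain ⟨m', -, h4⟩ := h3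
  have h5 : (I m' : ℕ) = (I m : ℕ) ∧ (J (τ m') : ℕ) = (J (σ m) : ℕ) := by
    have ha := (J (τ m')).2
    have hb := (J (σ m)).2
    rcases Nat.lt_trichotomy (I m' : ℕ) (I m : ℕ) with hlt | heq | hlt
    · exfalso
      have : n * ((I m' : ℕ) + 1) ≤ n * (I m : ℕ) := Nat.mul_le_mul_left n hlt
      rw [mul_add, mul_one] at this
      omega
    · refine ⟨heq, ?_⟩
      rw [heq] at h4
      omega
    · exfalso
      have : n * ((I m : ℕ) + 1) ≤ n * (I m' : ℕ) := Nat.mul_le_mul_left n hlt
      rw [mul_add, mul_one] at this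
      omega
  have h6 : m' = m := I.injective (Fin.ext h5.1)
  rw [h6] at h5
  exact (J.injective (Fin.ext h5.2)).symm

/-- For `A_ij = t^(2^(n i + j))`, `t` transcendental, the monomials of every minor are linearly independent. -/
theorem linearIndependent_explicit {k K : Type*} [Field k] [Field K] [Algebra k K] {t : K}
    (ht : Transcendental k t) {s n r : ℕ} (I : Fin r ↪ Fin s) (J : Fin r ↪ Fin n) :
    LinearIndependent k (fun σ : Equiv.Perm (Fin r) =>
      ∏ m, t ^ 2 ^ (n * (I m : ℕ) + (J (σ m) : ℕ))) := by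
  have h1 : (fun σ : Equiv.Perm (Fin r) => ∏ m, t ^ 2 ^ (n * (I m : ℕ) + (J (σ m) : ℕ))) =
      (fun e : ℕ => t ^ e) ∘ fun σ : Equiv.Perm (Fin r) =>
        ∑ m, 2 ^ (n * (I m : ℕ) + (J (σ m) : ℕ)) := by
    funext σ
    rw [Function.comp_apply, Finset.prod_pow_eq_pow_sum]
  rw [h1]
  refine LinearIndependent.comp ?_ _ (exponent_injective I J)
  have h2 : LinearIndependent k (fun e : ℕ => (Polynomial.aeval (R := k) t).toLinearMap
      ((Polynomial.basisMonomials k) e)) :=
    (Polynomial.basisMonomials k).linearIndependent.map' _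
      (LinearMap.ker_eq_bot.mpr (transcendental_iff_injective.mp ht))
  convert h2 using 1
  funext e
  simp

theorem result {k K : Type*} [Field k] [CharZero k] [Field K] [Algebra k K]
    [Algebra.EssFiniteType k K]
    (hk : ∀ x : K, IsAlgebraic k x → ∃ c : k, algebraMap k K c = x)
    {s n d : ℕ} (hsn : s ≤ n) (hd0 : 0 < d) (hd : s ^ 2 ≤ d) :
    (∀ A : Fin s → Fin n → K,
      (∀ (r : ℕ) (I : Fin r ↪ Fin s) (J : Fin r ↪ Fin n),
        LinearIndependent k (fun σ : Equiv.Perm (Fin r) => ∏ m, A (I m) (J (σ m)))) →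
      {P : ℙ K (Fin s ⊕ Fin n → K) |
        ∀ j, P.rep (Sum.inr j) ^ d = ∑ i, A i j * P.rep (Sum.inl i) ^ d}.Finite) ∧
    (∀ t : K, Transcendental k t →
      {P : ℙ K (Fin s ⊕ Fin n → K) |
        ∀ j : Fin n, P.rep (Sum.inr j) ^ d =
          ∑ i : Fin s, t ^ 2 ^ (n * (i : ℕ) + (j : ℕ)) * P.rep (Sum.inl i) ^ d}.Finite) := by
  have main : ∀ A : Fin s → Fin n → K,
      (∀ (r : ℕ) (I : Fin r ↪ Fin s) (J : Fin r ↪ Fin n),
        LinearIndependent k (fun σ : Equiv.Perm (Fin r) => ∏ m, A (I m) (J (σ m)))) →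
      {P : ℙ K (Fin s ⊕ Fin n → K) |
        ∀ j, P.rep (Sum.inr j) ^ d = ∑ i, A i j * P.rep (Sum.inl i) ^ d}.Finite := by
    intro A hA
    have h1 := mg_crit hk (mgRow A) hd0 (by rw [finrank_mgRow]; exact hd) (mgN hsn A hA)
    exact h1
  exact ⟨main, fun t ht => main _ fun r I J => linearIndependent_explicit ht I J⟩

end Pool.Agent.Results.MP_46885d_ag.ExplicitFiniteness
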