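import Pool.Agent.GBL.KumS

/-!
# Geometric Bombieri-Lang for Kummer covers over function fields

`K / k` is a finitely generated extension of fields of characteristic `0` with `k` algebraically closed
in `K`.  Let `F_i` be polynomials over `K` (forms, if `X` is to be a projective variety) and `d_i ≥ 1`,
such that `d_i ≥ (m_i - 1)^2`, where `m_i` is the number of monomials of `F_i`.
We describe all `K`-points of `X = {x : F_i((x_j^(d_i))_j) = 0 for all i}`.
If all `d_i` are equal to `d`, then `X` is the inverse image of an arbitrary projective variety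
`Y = {F_i = 0}` under the map `x ↦ (x_j^d)_j`.
-/

open Function

namespace Pool.Agent.Results.MP_46885d_ag.KummerCovers

open Pool.Agent.GBL

/-- The vectors `x` over `K` with `F_i((x_j^(d_i))_j) = 0` for all `i`. -/
def kummer {K ι κ : Type*} [Field K] (F : κ → MvPolynomial ι K) (d : κ → ℕ) : Set (ι → K) :=
  {x | ∀ i, MvPolynomial.eval (fun j => x j ^ d i) (F i) = 0}

theorem torus_scalar {K ι : Type*} [Field K] (W : Set (ι → ℤ)) (i j : ι)
    (h1 : ∀ w ∈ W, w i = w j) (h : ι → Kˣ) (hh : h ∈ torus K W) : h i = h j := by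
  have h2 : torus K W ≤ (Pi.evalMonoidHom (fun _ : ι => Kˣ) i).eqLocus
      (Pi.evalMonoidHom (fun _ : ι => Kˣ) j) := by
    rw [torus, Subgroup.closure_le]
    rintro _ ⟨w, hw, t, rfl⟩
    change t ^ w i = t ^ w j
    rw [h1 w hw]
  exact h2 hh

theorem result {k K : Type*} [Field k] [CharZero k] [Field K] [Algebra k K]
    [Algebra.EssFiniteType k K]
    (hk : ∀ x : K, IsAlgebraic k x → ∃ c : k, algebraMap k K c = x)
    {ι κ : Type*} [Finite ι] [Finite κ] (F : κ → MvPolynomial ι K) (d : κ → ℕ)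
    (hd0 : ∀ i, 0 < d i) (hd : ∀ i, ((F i).support.card - 1) ^ 2 ≤ d i) :
    ∃ S : Set ((ι → K) × Set (ι → ℤ) × Set (MvPolynomial ι k)), S.Finite ∧
      (∀ p ∈ S, p.1 ∈ kummer F d ∧ p.2.2.Finite ∧
        ∀ z : ι → K, (∀ g ∈ p.2.2, MvPolynomial.aeval z g = 0) → (∀ j, p.1 j = 0 → z j = 0) ∧
          ∀ h ∈ torus K p.2.1, (fun j => (h j : K) * (p.1 j * z j)) ∈ kummer F d) ∧
      (∀ x ∈ kummer F d, ∃ p ∈ S, ∃ c : ι → k, (∀ g ∈ p.2.2, MvPolynomial.eval c g = 0) ∧
        (∀ j, c j = 0 ↔ p.1 j = 0) ∧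
        ∃ h ∈ torus K p.2.1, ∀ j, x j = h j * (p.1 j * algebraMap k K (c j))) ∧
      (∀ x ∈ kummer F d,
        (∃ w : ι → ℤ, (∃ i j, x i ≠ 0 ∧ x j ≠ 0 ∧ w i ≠ w j) ∧
          ∀ t : K, t ≠ 0 → (fun j => t ^ w j * x j) ∈ kummer F d) ∨
        ∃ p ∈ S, ∃ c : ι → k, (∀ g ∈ p.2.2, MvPolynomial.eval c g = 0) ∧
          ∃ l : K, ∀ j, x j = l * (p.1 j * algebraMap k K (c j))) := by
  classical
  have := Fintype.ofFinite ι
  obtain ⟨S, hS, h1, h2⟩ := kum_struct hk F d hd0 hd (kummer F d) rfl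
  refine ⟨S, hS, h1, h2, ?_⟩
  intro x hx
  obtain ⟨p, hp, c, hc, hc0, h, hh, hxc⟩ := h2 x hx
  have hx0 : ∀ j, x j ≠ 0 ↔ p.1 j ≠ 0 := by
    intro j
    rw [hxc j]
    constructor
    · intro h3 h4
      rw [h4, zero_mul, mul_zero] at h3
      exact h3 rfl
    · intro h3
      refine mul_ne_zero (h j).ne_zero (mul_ne_zero h3 ?_)
      have : c j ≠ 0 := fun h4 => h3 ((hc0 j).1 h4)
      simpa using this
  by_cases hW : ∀ w ∈ p.2.1, ∀ i j, x i ≠ 0 → x j ≠ 0 → w i = w j
  · right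
    refine ⟨p, hp, c, hc, ?_⟩
    by_cases hx1 : ∃ j0, x j0 ≠ 0
    · obtain ⟨j0, hj0⟩ := hx1
      refine ⟨h j0, fun j => ?_⟩
      by_cases hj : x j = 0
      · have : p.1 j = 0 := by
          by_contra h3
          exact (hx0 j).2 h3 hj
        rw [hj, this, zero_mul, mul_zero]
      · rw [hxc j, torus_scalar p.2.1 j j0 (fun w hw => hW w hw j j0 hj hj0) h hh]
    · push Not at hx1
      exact ⟨0, fun j => by rw [hx1 j, zero_mul]⟩
  · left
    push Not at hW
    obtain ⟨w, hw, i, j, hi, hj, hij⟩ := hW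
    refine ⟨w, ⟨i, j, hi, hj, hij⟩, fun t ht => ?_⟩
    have h3 : (fun l => (Units.mk0 t ht) ^ w l) * h ∈ torus K p.2.1 :=
      Subgroup.mul_mem _ (Subgroup.subset_closure ⟨w, hw, Units.mk0 t ht, rfl⟩) hh
    have h4 := ((h1 p hp).2.2 (fun l => algebraMap k K (c l)) (fun g hg => by
      have : (fun j => algebraMap k K (c j)) = algebraMap k K ∘ c := rfl
      rw [this, MvPolynomial.aeval_algebraMap_apply, MvPolynomial.aeval_eq_eval]
      have h5 : MvPolynomial.eval c g = 0 := hc g hg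
      simp [h5])).2 _ h3
    convert h4 using 1
    funext l
    rw [hxc l, Pi.mul_apply, Units.val_mul, Units.val_zpow_eq_zpow_val, Units.val_mk0]
    ring

end Pool.Agent.Results.MP_46885d_ag.KummerCovers
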